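import Pool.Agent.Lib.helper11.DiagTM

set_option autoImplicit false

namespace Pool.Agent.Results.MP_a5725c_al.NotComputable

open H11Diag TensorProduct

lemma rank_ne {G : Type} [Group G] (φ : G →* Multiplicative ℤ) (g : G)
    (hg : φ g = Multiplicative.ofAdd 1) :
    Module.rank ℚ (ℚ ⊗[ℤ] Additive (Abelianization G)) ≠ 0 := by
  intro h
  rw [rank_zero_iff] at h
  let ψ : Additive (Abelianization G) →ₗ[ℤ] ℤ :=
    (MonoidHom.toAdditiveLeft (Abelianization.lift φ)).toIntLinearMap
  have h1 : ψ (Additive.ofMul (Abelianization.of g)) = 1 := by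
    simp [ψ, hg]
  have h2 := congrArg (fun t => TensorProduct.rid ℤ ℚ (LinearMap.lTensor ℚ ψ t))
    (h.elim ((1 : ℚ) ⊗ₜ[ℤ] Additive.ofMul (Abelianization.of g)) 0)
  simp [h1] at h2

lemma rank_eq {G : Type} [Group G] (h : ∀ g : G, g = 1) :
    Module.rank ℚ (ℚ ⊗[ℤ] Additive (Abelianization G)) = 0 := by
  have : Subsingleton G := ⟨fun a b => (h a).trans (h b).symm⟩
  have : Subsingleton (Abelianization G) := Quot.Subsingleton
  have : Subsingleton (Additive (Abelianization G)) := Additive.ofMul.symm.subsingleton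
  exact rank_subsingleton' _ _

theorem result : ¬ ∃ f : List (List ℕ × List ℕ) × List ℕ →. Option ℕ, Partrec f ∧
    ∀ (R : List (List ℕ × List ℕ)) (w : List ℕ),
      (∀ r ∈ R, r.1 ≠ [] ∧ r.2 ≠ [] ∧ r.swap ∉ R) → w ≠ [] →
      ∃ b ∈ f (R, w), ∀ n : ℕ, (b = some n ↔
        Module.rank ℚ (ℚ ⊗[ℤ] Additive (Abelianization (DG {r | r ∈ R} w))) = n) := by
  rintro ⟨f, hf, H⟩
  obtain ⟨R, w, P, hw, hR, hne, hP, hG⟩ := undec
  have hv : ∀ r ∈ R, r.1 ≠ [] ∧ r.2 ≠ [] ∧ r.swap ∉ R := by
    intro r hr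
    obtain ⟨h1, h2⟩ := hR r hr
    refine ⟨h1, ?_, fun h => ?_⟩
    · intro h; simp [h] at h2
    · have := (hR _ h).2
      simp at this; omega
  choose b hb hb' using fun n => H R (w n) hv (hne n)
  have hc : Computable b :=
    (hf.comp ((Computable.const R).pair hw)).of_eq_tot hb
  apply hP
  rw [ComputablePred.computable_iff]
  refine ⟨fun n => !decide (b n = some 0), ?_, funext fun n => propext ?_⟩
  · exact (Primrec.not.to_comp).comp
      ((Primrec.eq.decide.comp Primrec.id (Primrec.const (some 0))).to_comp.comp hc)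
  have h0 := hb' n 0
  simp only [Nat.cast_zero] at h0
  simp only [Bool.not_eq_true', decide_eq_false_iff_not, h0]
  constructor
  · intro h
    obtain ⟨φ, g, hg⟩ := (hG n).1 h
    exact rank_ne φ g hg
  · intro h
    by_contra hn
    exact h (rank_eq ((hG n).2 hn))

end Pool.Agent.Results.MP_a5725c_al.NotComputable
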